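import Pool.Agent.Helper35.EAM.Spec2
import Pool.Graph.R_pool_sql_team_seeded_1e53cb71.Helper79K9.FS.A5

/-!
# The zero-one law for translation invariant events (EAM2, part ERG)
-/

set_option autoImplicit false

open MeasureTheory Filter
open scoped ENNReal symmDiff Topology

namespace Pool.Agent.Helper61.EAM

open Pool.H47EA Pool.Agent.Helper79K9.FS

variable {d : ℕ}

/-- the influence on the spin at `x` is at least `a` at all scales -/
def EV (β a : ℝ) (x : Site d) : Set (Coupling d) := {J | ∀ n : ℕ, 1 ≤ n → a ≤ infl β J n x}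

/-- the influence on the spin at `x` is at least `a` at scale `n` -/
def EN (β a : ℝ) (n : ℕ) (x : Site d) : Set (Coupling d) := {J | a ≤ infl β J n x}

theorem meas_EN {n : ℕ} (hn : 1 ≤ n) (β a : ℝ) (x : Site d) : MeasurableSet (EN β a n x) :=
  (meas_infl hn β x) measurableSet_Ici

theorem EV_eq (β a : ℝ) (x : Site d) : EV β a x = ⋂ n : ℕ, EN β a (n + 1) x := by
  ext J
  simp only [EV, EN, Set.mem_ofPred_eq, Set.mem_iInter]
  constructor
  · exact fun h n => h (n + 1) (by omega)
  · intro h n hn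
    have := h (n - 1)
    rwa [Nat.sub_add_cancel hn] at this

theorem meas_EV (β a : ℝ) (x : Site d) : MeasurableSet (EV β a x) := by
  rw [EV_eq]
  exact MeasurableSet.iInter fun n => meas_EN (by omega) β a x

theorem EV_sub (β a : ℝ) {n : ℕ} (hn : 1 ≤ n) (x : Site d) : EV β a x ⊆ EN β a n x :=
  fun _ h => h n hn

theorem dist_tr (v : Site d) : ∀ x y : Site d, dist1 (x + v) (y + v) = dist1 x y :=
  fun x y => dist_add x y v

theorem infl_tr_le (β : ℝ) (J' : Coupling d) (n : ℕ) (x v : Site d) :
    infl β (pull (fun z => z + v) (dist_tr v) J') n x ≤ infl β J' n (x + v) := by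
  classical
  refine infl_pull (fun z => z + v) (dist_tr v) β J' n x (fun _ => true) fun z => ?_
  rw [Finset.sum_eq_zero]
  intro y hy
  exact absurd ⟨y - v, by simp⟩ (Finset.mem_filter.1 hy).2

theorem infl_tr (β : ℝ) (J' : Coupling d) (n : ℕ) (x v : Site d) :
    infl β (pull (fun z => z + v) (dist_tr v) J') n x = infl β J' n (x + v) := by
  refine le_antisymm (infl_tr_le β J' n x v) ?_
  have h := infl_tr_le β (pull (fun z => z + v) (dist_tr v) J') n (x + v) (-v)
  have e1 : pull (fun z => z + -v) (dist_tr (-v)) (pull (fun z => z + v) (dist_tr v) J') = J' := by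
    funext e
    unfold pull
    congr 1
    apply Subtype.ext
    show Sym2.map (fun z => z + v) (Sym2.map (fun z => z + -v) e.1) = e.1
    rw [Sym2.map_map]
    have : ((fun z : Site d => z + v) ∘ fun z => z + -v) = id := by
      funext z
      simp
    rw [this, Sym2.map_id]
    rfl
  rw [e1] at h
  have e2 : x + v + -v = x := by simp
  rwa [e2] at h

theorem mu_EN {n : ℕ} (hn : 1 ≤ n) (β a : ℝ) (v : Site d) :
    couplingLaw d (EN β a n v) = couplingLaw d (EN β a n 0) := by
  rw [← law_pull (fun z => z + v) (dist_tr v), Measure.map_apply (meas_pull _ _)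
    (meas_EN hn β a 0), law_pull (fun z => z + v) (dist_tr v)]
  congr 1
  ext J
  simp only [EN, Set.mem_ofPred_eq, Set.mem_preimage]
  rw [infl_tr, zero_add]

theorem mu_EV (β a : ℝ) (v : Site d) :
    couplingLaw d (EV β a v) = couplingLaw d (EV β a 0) := by
  rw [← law_pull (fun z => z + v) (dist_tr v), Measure.map_apply (meas_pull _ _)
    (meas_EV β a 0), law_pull (fun z => z + v) (dist_tr v)]
  congr 1
  ext J
  simp only [EV, Set.mem_ofPred_eq, Set.mem_preimage]
  simp only [infl_tr, zero_add]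

/-- the events at scale `n` approximate -/
theorem approx_EN (β a : ℝ) {ε : ℝ≥0∞} (hε : 0 < ε) : ∃ n : ℕ, 1 ≤ n ∧
    couplingLaw d (EN β a n 0) ≤ couplingLaw d (EV β a 0) + ε := by
  have h : Tendsto (fun n : ℕ => couplingLaw d (EN β a (n + 1) 0)) atTop
      (𝓝 (couplingLaw d (⋂ n : ℕ, EN β a (n + 1) 0))) := by
    refine tendsto_measure_iInter_atTop (fun n => (meas_EN (by omega) β a 0).nullMeasurableSet)
      ?_ ⟨0, measure_ne_top _ _⟩
    intro m n hmn J hJ
    exact le_trans hJ (infl_anti (by omega))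
  rw [← EV_eq] at h
  have h2 : couplingLaw d (EV β a 0) < couplingLaw d (EV β a 0) + ε :=
    ENNReal.lt_add_right (measure_ne_top _ _) hε.ne'
  obtain ⟨n, hn⟩ := ((tendsto_order.1 h).2 _ h2).exists
  exact ⟨n + 1, by omega, hn.le⟩

/-- a finite set of edges is disjoint from a far translate -/
theorem far (hd : 1 ≤ d) (S : Finset (lat d).edgeSet) (n : ℕ) :
    ∃ v : Site d, Disjoint S (EF n v) := by
  classical
  have h1 : ∀ e : (lat d).edgeSet, ∃ r : ℕ, ∀ w ∈ e.1, dist1 0 w ≤ r := by
    rintro ⟨e, he⟩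
    induction e using Sym2.ind with
    | _ a b =>
      refine ⟨dist1 0 a + dist1 0 b, fun w hw => ?_⟩
      have hw' : w ∈ s(a, b) := hw
      rw [Sym2.mem_iff] at hw'
      rcases hw' with rfl | rfl <;> omega
  choose r hr using h1
  obtain ⟨R, hR⟩ : ∃ R : ℕ, ∀ e ∈ S, r e ≤ R := ⟨∑ e ∈ S, r e, fun e he =>
    Finset.single_le_sum (f := r) (fun _ _ => Nat.zero_le _) he⟩
  let v : Site d := fun i => if i = ⟨0, hd⟩ then ((n + R : ℕ) : ℤ) else 0
  have hv : dist1 (0 : Site d) v = n + R := by
    unfold dist1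
    rw [Finset.sum_eq_single (⟨0, hd⟩ : Fin d)]
    · simp only [v, Pi.zero_apply, if_true]
      omega
    · intro i _ hi
      simp only [v, Pi.zero_apply, if_neg hi]
      rfl
    · intro h
      exact absurd (Finset.mem_univ _) h
  refine ⟨v, ?_⟩
  rw [Finset.disjoint_left]
  intro e he he'
  rw [mem_EF] at he'
  obtain ⟨-, w, hw, hvw⟩ := he'
  have h3 := chain_dist_tri (0 : Site d) w v
  have h4 : dist1 w v = dist1 v w := chain_dist_comm w v
  have h5 := hr e w hw
  have h6 := hR e he
  omega

theorem indep_EN {n : ℕ} (hn : 1 ≤ n) (β a : ℝ) (v : Site d) (S : Finset (lat d).edgeSet)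
    (B : Set (S → Bool)) (hS : Disjoint S (EF n v)) :
    couplingLaw d (cylinder S B ∩ EN β a n v) =
      couplingLaw d (cylinder S B) * couplingLaw d (EN β a n v) := by
  have hB : MeasurableSet (cylinder S B : Set (Coupling d)) :=
    MeasurableSet.cylinder S (Set.toFinite B).measurableSet
  have hE := meas_EN hn β a v
  have h := chain_indep S (EF n v) hS ((cylinder S B : Set (Coupling d)).indicator 1)
    ((EN β a n v).indicator 1) ?_ ?_
  · rw [lintegral_indicator_one hB, lintegral_indicator_one hE] at h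
    rw [← h, ← lintegral_indicator_one (hB.inter hE)]
    congr 1
    funext J
    rw [Set.inter_indicator_one]
    rfl
  · intro J J' hJ
    have : (J ∈ (cylinder S B : Set (Coupling d))) = (J' ∈ (cylinder S B : Set (Coupling d))) := by
      rw [mem_cylinder, mem_cylinder]
      have : S.restrict J = S.restrict J' := by
        funext e
        exact hJ e.1 e.2
      rw [this]
    by_cases hm : J' ∈ (cylinder S B : Set (Coupling d))
    · rw [Set.indicator_of_mem (this ▸ hm), Set.indicator_of_mem hm]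
      rfl
    · rw [Set.indicator_of_notMem (this ▸ hm), Set.indicator_of_notMem hm]
  · intro J J' hJ
    have h1 : infl β J n v = infl β J' n v := infl_local hn hJ
    by_cases hm : J' ∈ EN β a n v
    · have hm' : J ∈ EN β a n v := by
        show a ≤ infl β J n v
        rw [h1]
        exact hm
      rw [Set.indicator_of_mem hm', Set.indicator_of_mem hm]
      rfl
    · have hm' : J ∉ EN β a n v := by
        intro hm'
        apply hm
        show a ≤ infl β J' n v
        rw [← h1]
        exact hm'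
      rw [Set.indicator_of_notMem hm', Set.indicator_of_notMem hm]

theorem alg_cyl : IsSetAlgebra (measurableCylinders (fun _ : (lat d).edgeSet => Bool)) where
  empty_mem := empty_mem_measurableCylinders _
  compl_mem := fun _ hs => compl_mem_measurableCylinders hs
  union_mem := fun _ _ hs ht => union_mem_measurableCylinders hs ht

theorem dense_cyl : (couplingLaw d).MeasureDense
    (measurableCylinders (fun _ : (lat d).edgeSet => Bool)) := by
  exact Measure.MeasureDense.of_generateFrom_isSetAlgebra_finite (μ := couplingLaw d) alg_cyl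
    (generateFrom_measurableCylinders (α := fun _ : (lat d).edgeSet => Bool)).symm

theorem bound (hd : 1 ≤ d) (β a : ℝ) {ε : ℝ} (hε : 0 < ε) :
    couplingLaw d (⋃ x : Site d, EV β a x)ᶜ * couplingLaw d (EV β a 0) ≤
      3 * ENNReal.ofReal ε := by
  set A : Set (Coupling d) := (⋃ x : Site d, EV β a x)ᶜ with hA
  have hAm : MeasurableSet A := (MeasurableSet.iUnion fun x => meas_EV β a x).compl
  have hε' : (0 : ℝ≥0∞) < ENNReal.ofReal ε := ENNReal.ofReal_pos.2 hε
  obtain ⟨t, ht, hAt⟩ := dense_cyl.approx A hAm (measure_ne_top _ _) ε hε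
  obtain ⟨S, B, -, rfl⟩ := (mem_measurableCylinders t).1 ht
  obtain ⟨n, hn, hEN⟩ := approx_EN (d := d) β a hε'
  obtain ⟨v, hv⟩ := far hd S n
  set μ := couplingLaw d
  set c : Set (Coupling d) := cylinder S B
  have h1 : μ (c \ A) ≤ ENNReal.ofReal ε :=
    (measure_mono (fun J hJ => Or.inr hJ)).trans hAt.le
  have h2 : μ (A \ c) ≤ ENNReal.ofReal ε :=
    (measure_mono (fun J hJ => Or.inl hJ)).trans hAt.le
  have h3 : μ (EN β a n v \ EV β a v) ≤ ENNReal.ofReal ε := by
    rw [measure_sdiff (EV_sub β a hn v) (meas_EV β a v).nullMeasurableSet (measure_ne_top _ _)]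
    rw [mu_EN hn, mu_EV]
    exact tsub_le_iff_left.2 hEN
  have h4 : μ (c ∩ EN β a n v) ≤ ENNReal.ofReal ε + ENNReal.ofReal ε := by
    have : c ∩ EN β a n v ⊆ (c \ A) ∪ (EN β a n v \ EV β a v) := by
      rintro J ⟨hc, hE⟩
      by_cases hJ : J ∈ EV β a v
      · left
        refine ⟨hc, fun h => h ?_⟩
        exact Set.mem_iUnion.2 ⟨v, hJ⟩
      · right
        exact ⟨hE, hJ⟩
    exact (measure_mono this).trans ((measure_union_le _ _).trans (add_le_add h1 h3))
  have h5 : μ A ≤ μ c + ENNReal.ofReal ε := by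
    have : A ⊆ c ∪ (A \ c) := by
      intro J hJ
      by_cases h : J ∈ c
      · exact Or.inl h
      · exact Or.inr ⟨hJ, h⟩
    exact (measure_mono this).trans ((measure_union_le _ _).trans (add_le_add le_rfl h2))
  have h6 : μ (EV β a 0) ≤ μ (EN β a n v) := by
    rw [← mu_EV β a v]
    exact measure_mono (EV_sub β a hn v)
  calc μ A * μ (EV β a 0) ≤ (μ c + ENNReal.ofReal ε) * μ (EV β a 0) :=
        mul_le_mul' h5 le_rfl
    _ = μ c * μ (EV β a 0) + ENNReal.ofReal ε * μ (EV β a 0) := add_mul _ _ _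
    _ ≤ μ c * μ (EN β a n v) + ENNReal.ofReal ε * 1 :=
        add_le_add (mul_le_mul' le_rfl h6) (mul_le_mul' le_rfl prob_le_one)
    _ = μ (c ∩ EN β a n v) + ENNReal.ofReal ε := by
        rw [indep_EN hn β a v S B hv, mul_one]
    _ ≤ ENNReal.ofReal ε + ENNReal.ofReal ε + ENNReal.ofReal ε := add_le_add h4 le_rfl
    _ = 3 * ENNReal.ofReal ε := by ring

theorem t_ERG : Pool.Agent.Helper35.EAM2.S_ERG := by
  intro d β a hd hpos
  have hpos' : 0 < couplingLaw d (EV β a 0) := hpos
  have h0 : couplingLaw d (⋃ x : Site d, EV β a x)ᶜ * couplingLaw d (EV β a 0) = 0 := by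
    refine le_antisymm ?_ zero_le
    refine ENNReal.le_of_forall_pos_le_add fun ε hε _ => ?_
    have := bound hd β a (ε := (ε : ℝ) / 3) (by positivity)
    refine this.trans ?_
    rw [zero_add]
    have e1 : (3 : ℝ≥0∞) = ENNReal.ofReal 3 := by simp
    rw [e1, ← ENNReal.ofReal_mul (by norm_num)]
    have e2 : (3 : ℝ) * ((ε : ℝ) / 3) = ε := by ring
    rw [e2, ENNReal.ofReal_coe_nnreal]
  have h1 : couplingLaw d (⋃ x : Site d, EV β a x)ᶜ = 0 := by
    rcases mul_eq_zero.1 h0 with h | h
    · exact h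
    · exact absurd h hpos'.ne'
  have h2 : ∀ᵐ J ∂(couplingLaw d), J ∈ ⋃ x : Site d, EV β a x := by
    rw [ae_iff]
    exact h1
  filter_upwards [h2] with J hJ
  obtain ⟨x, hx⟩ := Set.mem_iUnion.1 hJ
  exact ⟨x, hx⟩

end Pool.Agent.Helper61.EAM
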