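import Pool.Agent.Helper35.EAM.Spec5
import Pool.Agent.Helper61.EAM.ERG

/-!
# The zero-one law for translation invariant events (EAM4, part ZO)
-/

set_option autoImplicit false

open MeasureTheory Filter
open scoped ENNReal symmDiff Topology

namespace Pool.Agent.Helper61.EAM

open Pool.H47EA Pool.Agent.Helper79K9.FS

variable {d : ℕ}

/-- the edges of a finite set are within bounded distance of `0` -/
theorem bd_edges (S : Finset (lat d).edgeSet) :
    ∃ R : ℕ, ∀ e ∈ S, ∀ w ∈ e.1, dist1 (0 : Site d) w ≤ R := by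
  have h1 : ∀ e : (lat d).edgeSet, ∃ r : ℕ, ∀ w ∈ e.1, dist1 (0 : Site d) w ≤ r := by
    rintro ⟨e, he⟩
    induction e using Sym2.ind with
    | _ a b =>
      refine ⟨dist1 0 a + dist1 0 b, fun w hw => ?_⟩
      have hw' : w ∈ s(a, b) := hw
      rw [Sym2.mem_iff] at hw'
      rcases hw' with rfl | rfl <;> omega
  choose r hr using h1
  exact ⟨∑ e ∈ S, r e, fun e he w hw => (hr e w hw).trans
    (Finset.single_le_sum (f := r) (fun _ _ => Nat.zero_le _) he)⟩

theorem exists_far (hd : 1 ≤ d) (m : ℕ) : ∃ v : Site d, dist1 (0 : Site d) v = m := by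
  refine ⟨fun i => if i = ⟨0, hd⟩ then ((m : ℕ) : ℤ) else 0, ?_⟩
  unfold dist1
  rw [Finset.sum_eq_single (⟨0, hd⟩ : Fin d)]
  · simp only [Pi.zero_apply, if_true]
    omega
  · intro i _ hi
    simp only [Pi.zero_apply, if_neg hi]
    rfl
  · intro h
    exact absurd (Finset.mem_univ _) h

open Classical in
/-- the translated edges -/
noncomputable def shE (S : Finset (lat d).edgeSet) (v : Site d) : Finset (lat d).edgeSet :=
  S.image (emE (fun z => z + v) (dist_tr v))

theorem shE_disj (hd : 1 ≤ d) (S : Finset (lat d).edgeSet) :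
    ∃ v : Site d, Disjoint S (shE S v) := by
  classical
  obtain ⟨R, hR⟩ := bd_edges S
  obtain ⟨v, hv⟩ := exists_far hd (2 * R + 1)
  refine ⟨v, ?_⟩
  rw [Finset.disjoint_left]
  intro e he he'
  obtain ⟨e', he'', rfl⟩ := Finset.mem_image.1 he'
  obtain ⟨w, hw⟩ : ∃ w, w ∈ e'.1 := by
    obtain ⟨e', -⟩ := e'
    induction e' using Sym2.ind with
    | _ a b => exact ⟨a, Sym2.mem_mk_left a b⟩
  have h1 := hR e' he'' w hw
  have h2 : w + v ∈ (emE (fun z => z + v) (dist_tr v) e').1 := by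
    show w + v ∈ Sym2.map (fun z => z + v) e'.1
    rw [Sym2.mem_map]
    exact ⟨w, hw, rfl⟩
  have h3 := hR _ he _ h2
  have h4 := chain_dist_tri (0 : Site d) (w + v) v
  have h5 : dist1 (w + v) v = dist1 (0 : Site d) w := by
    have := dist_tr v w 0
    rw [zero_add] at this
    rw [this, chain_dist_comm]
  omega

theorem mem_cyl_local (S : Finset (lat d).edgeSet) (B : Set (S → Bool)) {J J' : Coupling d}
    (h : ∀ e ∈ S, J e = J' e) :
    J ∈ (cylinder S B : Set (Coupling d)) ↔ J' ∈ (cylinder S B : Set (Coupling d)) := by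
  rw [mem_cylinder, mem_cylinder]
  have : S.restrict J = S.restrict J' := by
    funext e
    exact h e.1 e.2
  rw [this]

theorem indicator_local (A : Set (Coupling d)) (F : Finset (lat d).edgeSet)
    (h : ∀ J J' : Coupling d, (∀ e ∈ F, J e = J' e) → (J ∈ A ↔ J' ∈ A)) :
    ∀ J J' : Coupling d, (∀ e ∈ F, J e = J' e) →
      A.indicator (1 : Coupling d → ℝ≥0∞) J = A.indicator 1 J' := by
  intro J J' hJ
  have h1 := h J J' hJ
  by_cases hm : J' ∈ A
  · rw [Set.indicator_of_mem (h1.2 hm), Set.indicator_of_mem hm]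
    rfl
  · rw [Set.indicator_of_notMem (fun h' => hm (h1.1 h')), Set.indicator_of_notMem hm]

theorem indep_sets {A A' : Set (Coupling d)} (hA : MeasurableSet A) (hA' : MeasurableSet A')
    (F F' : Finset (lat d).edgeSet) (hF : Disjoint F F')
    (h : ∀ J J' : Coupling d, (∀ e ∈ F, J e = J' e) → (J ∈ A ↔ J' ∈ A))
    (h' : ∀ J J' : Coupling d, (∀ e ∈ F', J e = J' e) → (J ∈ A' ↔ J' ∈ A')) :
    couplingLaw d (A ∩ A') = couplingLaw d A * couplingLaw d A' := by
  have h1 := chain_indep F F' hF (A.indicator 1) (A'.indicator 1) (indicator_local A F h)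
    (indicator_local A' F' h')
  rw [lintegral_indicator_one hA, lintegral_indicator_one hA'] at h1
  rw [← h1, ← lintegral_indicator_one (hA.inter hA')]
  congr 1
  funext J
  rw [Set.inter_indicator_one]
  rfl

theorem zo_bound (hd : 1 ≤ d) (E : Set (Coupling d)) (hE : MeasurableSet E)
    (hinv : ∀ (v : Site d) (J : Coupling d), pull (fun z => z + v) (dist_tr v) J ∈ E ↔ J ∈ E)
    {ε : ℝ} (hε : 0 < ε) :
    couplingLaw d Eᶜ * couplingLaw d E ≤ 4 * ENNReal.ofReal ε := by
  obtain ⟨t, ht, hEt⟩ := dense_cyl.approx E hE (measure_ne_top _ _) ε hε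
  obtain ⟨S, B, hB, rfl⟩ := (mem_measurableCylinders t).1 ht
  obtain ⟨v, hv⟩ := shE_disj hd S
  set μ := couplingLaw d with hμ
  set c : Set (Coupling d) := cylinder S B with hc
  have hcm : MeasurableSet c := MeasurableSet.cylinder S hB
  set T : Coupling d → Coupling d := pull (fun z => z + v) (dist_tr v) with hT
  have hTm : Measurable T := meas_pull _ _
  have hTμ : μ.map T = μ := law_pull (fun z => z + v) (dist_tr v)
  have hcv : MeasurableSet (T ⁻¹' c) := hTm hcm
  have h1 : μ (E \ c) ≤ ENNReal.ofReal ε := (measure_mono (fun J hJ => Or.inl hJ)).trans hEt.le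
  have h2 : μ (c \ E) ≤ ENNReal.ofReal ε := (measure_mono (fun J hJ => Or.inr hJ)).trans hEt.le
  have hEv : T ⁻¹' E = E := by
    ext J
    exact hinv v J
  have h3 : μ (T ⁻¹' c \ E) ≤ ENNReal.ofReal ε := by
    have : T ⁻¹' c \ E = T ⁻¹' (c \ E) := by
      rw [Set.preimage_sdiff, hEv]
    rw [this, ← Measure.map_apply hTm (hcm.diff hE), hTμ]
    exact h2
  have h4 : μ (T ⁻¹' c) = μ c := by
    rw [← Measure.map_apply hTm hcm, hTμ]
  have h5 : μ (cᶜ ∩ T ⁻¹' c) = μ cᶜ * μ (T ⁻¹' c) := by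
    refine indep_sets hcm.compl hcv S (shE S v) hv ?_ ?_
    · intro J J' hJ
      rw [Set.mem_compl_iff, Set.mem_compl_iff, mem_cyl_local S B hJ]
    · intro J J' hJ
      rw [Set.mem_preimage, Set.mem_preimage]
      refine mem_cyl_local S B fun e he => ?_
      exact hJ _ (Finset.mem_image_of_mem _ he)
  have h6 : μ (cᶜ ∩ T ⁻¹' c) ≤ ENNReal.ofReal ε + ENNReal.ofReal ε := by
    have : cᶜ ∩ T ⁻¹' c ⊆ (E \ c) ∪ (T ⁻¹' c \ E) := by
      rintro J ⟨h7, h8⟩
      by_cases h9 : J ∈ E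
      · exact Or.inl ⟨h9, h7⟩
      · exact Or.inr ⟨h8, h9⟩
    exact (measure_mono this).trans ((measure_union_le _ _).trans (add_le_add h1 h3))
  have h7 : μ Eᶜ ≤ μ cᶜ + ENNReal.ofReal ε := by
    have : Eᶜ ⊆ cᶜ ∪ (c \ E) := by
      intro J hJ
      by_cases h : J ∈ c
      · exact Or.inr ⟨h, hJ⟩
      · exact Or.inl h
    exact (measure_mono this).trans ((measure_union_le _ _).trans (add_le_add le_rfl h2))
  have h8 : μ E ≤ μ c + ENNReal.ofReal ε := by
    have : E ⊆ c ∪ (E \ c) := by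
      intro J hJ
      by_cases h : J ∈ c
      · exact Or.inl h
      · exact Or.inr ⟨hJ, h⟩
    exact (measure_mono this).trans ((measure_union_le _ _).trans (add_le_add le_rfl h1))
  calc μ Eᶜ * μ E ≤ (μ cᶜ + ENNReal.ofReal ε) * μ E := mul_le_mul' h7 le_rfl
    _ = μ cᶜ * μ E + ENNReal.ofReal ε * μ E := add_mul _ _ _
    _ ≤ μ cᶜ * (μ c + ENNReal.ofReal ε) + ENNReal.ofReal ε * 1 :=
        add_le_add (mul_le_mul' le_rfl h8) (mul_le_mul' le_rfl prob_le_one)
    _ = μ cᶜ * μ c + μ cᶜ * ENNReal.ofReal ε + ENNReal.ofReal ε := by rw [mul_add, mul_one]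
    _ ≤ (ENNReal.ofReal ε + ENNReal.ofReal ε) + 1 * ENNReal.ofReal ε + ENNReal.ofReal ε := by
        refine add_le_add (add_le_add ?_ (mul_le_mul' prob_le_one le_rfl)) le_rfl
        rw [← h4, ← h5]
        exact h6
    _ = 4 * ENNReal.ofReal ε := by ring

theorem t_ZO : Pool.Agent.Helper35.EAM4.S_ZO := by
  intro d E hd hE hinv hpos
  have h0 : couplingLaw d Eᶜ * couplingLaw d E = 0 := by
    refine le_antisymm ?_ zero_le
    refine ENNReal.le_of_forall_pos_le_add fun ε hε _ => ?_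
    have := zo_bound hd E hE hinv (ε := (ε : ℝ) / 4) (by positivity)
    refine this.trans ?_
    rw [zero_add]
    have e1 : (4 : ℝ≥0∞) = ENNReal.ofReal 4 := by simp
    rw [e1, ← ENNReal.ofReal_mul (by norm_num)]
    have e2 : (4 : ℝ) * ((ε : ℝ) / 4) = ε := by ring
    rw [e2, ENNReal.ofReal_coe_nnreal]
  have h1 : couplingLaw d Eᶜ = 0 := by
    rcases mul_eq_zero.1 h0 with h | h
    · exact h
    · exact absurd h hpos.ne'
  rw [ae_iff]
  exact h1

end Pool.Agent.Helper61.EAM
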